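import Pool.Agent.Q284.EulM.Main

/-!
# MP_a2af9e_co, Q1: the multiplicity of `-1` in Eulerian polynomials of oriented complete
multipartite graphs is `⌊r/2⌋`
-/

namespace Pool.Agent.Results.MP_a2af9e_co.ExactMultiplicity

open Polynomial

/-- `des_D(σ)`: the number of arcs `u → v` of `D` with `σ(u) > σ(v)`. -/
noncomputable def des {n : ℕ} (D : Fin n → Fin n → Prop) (σ : Equiv.Perm (Fin n)) : ℕ :=
  Nat.card {p : Fin n × Fin n // D p.1 p.2 ∧ σ p.1 > σ p.2}

/-- The Eulerian polynomial `A_D(t) = ∑_σ t^{des_D(σ)}` of a digraph `D` on `n` vertices. -/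
noncomputable def eulerian {n : ℕ} (D : Fin n → Fin n → Prop) : ℤ[X] :=
  ∑ σ : Equiv.Perm (Fin n), X ^ des D σ

/-- `D` is an orientation of the complete multipartite graph whose parts are the fibres of
`c : Fin n → Fin k`: no arc inside a part, and exactly one of the arcs `u → v`, `v → u` between
vertices `u`, `v` of different parts. -/
def IsOrientation {n k : ℕ} (c : Fin n → Fin k) (D : Fin n → Fin n → Prop) : Prop :=
  (∀ u v, c u = c v → ¬ D u v) ∧ (∀ u v, c u ≠ c v → Xor' (D u v) (D v u))

/-- The number `r` of parts of odd size. -/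
noncomputable def oddParts {n k : ℕ} (c : Fin n → Fin k) : ℕ :=
  Nat.card {i : Fin k // Odd (Nat.card {v : Fin n // c v = i})}

/-- For every complete multipartite graph (parts = fibres of a surjection `c : Fin n → Fin k`)
with `r` parts of odd size and every orientation `D` of it, the multiplicity of `-1` as a root
of `A_D(t)` (over `ℂ`) is `⌊r/2⌋`. -/
theorem result : ∀ (n k : ℕ) (c : Fin n → Fin k), Function.Surjective c →
    ∀ D : Fin n → Fin n → Prop, IsOrientation c D →
    ((eulerian D).map (Int.castRingHom ℂ)).rootMultiplicity (-1) = oddParts c / 2 := by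
  classical
  intro n k c _ D hD
  have h : Pool.Agent.Q284.EulM.IsOr c D := by
    refine ⟨hD.1, fun u v huv => ?_⟩
    rcases hD.2 u v huv with h1 | h1
    · exact Or.inl h1
    · exact Or.inr h1
  have h1 := Pool.Agent.Q284.EulM.mult_eq h
  have h2 : eulerian D = Pool.Agent.Q284.EulM.EA D (X : ℤ[X]) (Fintype.card (Fin n))
      Finset.univ := by
    rw [Fintype.card_fin, ← Pool.Agent.Q284.EulM.EA_perm D (X : ℤ[X])]
    unfold eulerian des
    apply Finset.sum_congr rfl
    intro σ _
    rw [Nat.card_eq_fintype_card, Fintype.card_subtype]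
  have h3 : oddParts c = Pool.Agent.Q284.EulM.rr c Finset.univ := by
    unfold oddParts Pool.Agent.Q284.EulM.rr Pool.Agent.Q284.EulM.P
    rw [Nat.card_eq_fintype_card, Fintype.card_subtype]
    congr 1
    apply Finset.filter_congr
    intro i _
    rw [Nat.card_eq_fintype_card, Fintype.card_subtype]
  rw [h3, ← h1, h2]
  have h4 := Polynomial.eq_rootMultiplicity_map
    (p := Pool.Agent.Q284.EulM.EA D (X : ℤ[X]) (Fintype.card (Fin n)) Finset.univ)
    (f := Int.castRingHom ℂ) (RingHom.injective_int _) (-1)
  rw [h4]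
  simp

end Pool.Agent.Results.MP_a2af9e_co.ExactMultiplicity
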